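import Mathlib

/-!
# Determinant versus diagonal product for diagonally balanced positive matrices

We prove the conjectured sharp bound: for a symmetric, entrywise positive, diagonally balanced
`n × n` matrix `J` (`n ≥ 3`) one has
`det J / ∏ J i i ≤ det S / (n-1)^n = 2 (1 - 1/(n-1))^(n-1)`, where `S = (n-2) I + 1 1ᵀ`.

Proof: with `D = diag J`, the matrix `N = D^{-1/2} J D^{-1/2}` is positive semidefinite, has
trace `n` and has `2` as an eigenvalue; AM-GM for the other `n-1` eigenvalues gives the bound.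
-/

namespace Pool.Agent.Results.MP_fab4c6_an.DetBound

open Matrix Finset

/-- `Δ_i(J) = |J_ii| - ∑_{j ≠ i} |J_ij|`. -/
def rowExcess {n : ℕ} (J : Matrix (Fin n) (Fin n) ℝ) (i : Fin n) : ℝ :=
  |J i i| - ∑ j ∈ univ.erase i, |J i j|

/-- The matrix `S = (n-2) I_n + 1_n 1_nᵀ`. -/
def matS (n : ℕ) : Matrix (Fin n) (Fin n) ℝ :=
  ((n : ℝ) - 2) • (1 : Matrix (Fin n) (Fin n) ℝ) + Matrix.of (fun _ _ => (1 : ℝ))

/-- AM-GM in product form. -/
lemma prod_le_pow {ι : Type*} (s : Finset ι) (z : ι → ℝ) (hz : ∀ i ∈ s, 0 ≤ z i)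
    (hs : 0 < s.card) : ∏ i ∈ s, z i ≤ ((∑ i ∈ s, z i) / s.card) ^ s.card := by
  have hc : (0 : ℝ) < s.card := by exact_mod_cast hs
  have h := Real.geom_mean_le_arith_mean_weighted s (fun _ => (1 : ℝ) / s.card) z
    (fun i _ => by positivity) (by simp; field_simp) hz
  have h0 : 0 ≤ ∏ i ∈ s, z i ^ ((1 : ℝ) / s.card) :=
    prod_nonneg fun i hi => Real.rpow_nonneg (hz i hi) _
  have h2 : ∏ i ∈ s, z i = (∏ i ∈ s, z i ^ ((1 : ℝ) / s.card)) ^ s.card := by
    rw [← prod_pow]
    refine prod_congr rfl fun i hi => ?_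
    rw [← Real.rpow_natCast, ← Real.rpow_mul (hz i hi)]
    rw [one_div, inv_mul_cancel₀ hc.ne', Real.rpow_one]
  rw [h2]
  have h3 : ∑ i ∈ s, (1 : ℝ) / s.card * z i = (∑ i ∈ s, z i) / s.card := by
    rw [← mul_sum]; field_simp
  rw [h3] at h
  exact pow_le_pow_left₀ h0 h _

/-- The balanced matrix is positive semidefinite. -/
lemma posSemidef_of_balanced {n : ℕ} (J : Matrix (Fin n) (Fin n) ℝ) (hsymm : J.IsSymm)
    (hpos : ∀ i j, 0 < J i j) (hbal : ∀ i, J i i = ∑ j ∈ univ.erase i, J i j) :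
    J.PosSemidef := by
  refine PosSemidef.of_dotProduct_mulVec_nonneg ?_ ?_
  · rw [IsHermitian, conjTranspose_eq_transpose_of_trivial]; exact hsymm
  · intro x
    set A : Fin n → Fin n → ℝ := fun i j => if j = i then 0 else J i j with hA
    have hAsymm : ∀ i j, A i j = A j i := by
      intro i j
      by_cases h : i = j
      · subst h; rfl
      · simp only [hA, if_neg h, if_neg (Ne.symm h)]
        exact (hsymm.apply i j).symm
    have hAnn : ∀ i j, 0 ≤ A i j := by
      intro i j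
      simp only [hA]
      split_ifs
      · exact le_rfl
      · exact (hpos i j).le
    have hdiag : ∀ i, J i i = ∑ j, A i j := by
      intro i
      rw [hbal i]
      simp only [hA]
      rw [← Finset.sum_erase univ (a := i) (by simp)]
      refine sum_congr rfl fun j hj => ?_
      rw [if_neg (ne_of_mem_erase hj)]
    have hJ : ∀ i j, J i j = A i j + if j = i then J i i else 0 := by
      intro i j
      simp only [hA]
      split_ifs with h
      · subst h; simp
      · simp
    have key : star x ⬝ᵥ (J *ᵥ x) = (∑ i, ∑ j, A i j * (x i + x j) ^ 2) / 2 := by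
      have e1 : star x ⬝ᵥ (J *ᵥ x) = ∑ i, ∑ j, x i * (J i j * x j) := by
        simp [dotProduct, mulVec, mul_sum]
      have e2 : ∑ i, ∑ j, x i * (J i j * x j)
          = ∑ i, ∑ j, A i j * (x i * x j) + ∑ i, ∑ j, A i j * (x i) ^ 2 := by
        rw [← sum_add_distrib]
        refine sum_congr rfl fun i _ => ?_
        have : ∑ j, x i * (J i j * x j)
            = ∑ j, A i j * (x i * x j) + ∑ j, (if j = i then J i i else 0) * (x i * x j) := by
          rw [← sum_add_distrib]
          refine sum_congr rfl fun j _ => ?_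
          rw [hJ i j]; ring
        rw [this]
        congr 1
        rw [← sum_mul, ← hdiag i]
        simp only [ite_mul, zero_mul, sum_ite_eq', mem_univ, if_true]
        ring
      have e3 : ∑ i, ∑ j, A i j * (x i) ^ 2 = ∑ i, ∑ j, A i j * (x j) ^ 2 := by
        rw [sum_comm]
        refine sum_congr rfl fun i _ => sum_congr rfl fun j _ => ?_
        rw [hAsymm]
      have e4 : ∑ i, ∑ j, A i j * (x i + x j) ^ 2
          = 2 * ∑ i, ∑ j, A i j * (x i * x j) + ∑ i, ∑ j, A i j * (x i) ^ 2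
            + ∑ i, ∑ j, A i j * (x j) ^ 2 := by
        rw [mul_sum, ← sum_add_distrib, ← sum_add_distrib]
        refine sum_congr rfl fun i _ => ?_
        rw [mul_sum, ← sum_add_distrib, ← sum_add_distrib]
        refine sum_congr rfl fun j _ => ?_
        ring
      rw [e1, e2, e4, ← e3]
      ring
    rw [key]
    have : 0 ≤ ∑ i, ∑ j, A i j * (x i + x j) ^ 2 :=
      sum_nonneg fun i _ => sum_nonneg fun j _ => mul_nonneg (hAnn i j) (sq_nonneg _)
    linarith

/-- If a positive semidefinite `N` has trace `n` and eigenvalue `2`, then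
`det N ≤ 2 (1 - 1/(n-1))^(n-1)`. -/
lemma det_le_of_eigen {n : ℕ} (hn : 3 ≤ n) (N : Matrix (Fin n) (Fin n) ℝ) (hN : N.PosSemidef)
    (htr : N.trace = n) (v : Fin n → ℝ) (hv : v ≠ 0) (hNv : N *ᵥ v = (2 : ℝ) • v) :
    N.det ≤ 2 * (1 - 1 / ((n : ℝ) - 1)) ^ (n - 1) := by
  have hH := hN.isHermitian
  have hspec : (2 : ℝ) ∈ spectrum ℝ N := by
    rw [← Matrix.spectrum_toLin' , ← Module.End.hasEigenvalue_iff_mem_spectrum]
    refine Module.End.hasEigenvalue_of_hasEigenvector (x := v) ⟨?_, hv⟩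
    rw [Module.End.mem_eigenspace_iff, Matrix.toLin'_apply]
    exact hNv
  rw [hH.spectrum_real_eq_range_eigenvalues] at hspec
  obtain ⟨i₀, hi₀⟩ := hspec
  have hdet : N.det = ∏ i, hH.eigenvalues i := by
    have := hH.det_eq_prod_eigenvalues
    simpa using this
  have htr' : ∑ i, hH.eigenvalues i = n := by
    have := hH.trace_eq_sum_eigenvalues
    rw [htr] at this
    simpa using this.symm
  have hcard : (univ.erase i₀).card = n - 1 := by simp
  rw [hdet, ← mul_prod_erase univ _ (mem_univ i₀), hi₀]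
  have h1 := prod_le_pow (univ.erase i₀) hH.eigenvalues (fun i _ => hN.eigenvalues_nonneg i)
    (by rw [hcard]; omega)
  have hsum : ∑ i ∈ univ.erase i₀, hH.eigenvalues i = n - 2 := by
    have := add_sum_erase univ hH.eigenvalues (mem_univ i₀)
    rw [hi₀, htr'] at this
    linarith
  rw [hsum, hcard] at h1
  have hn1 : ((n - 1 : ℕ) : ℝ) = (n : ℝ) - 1 := by
    rw [Nat.cast_sub (by omega)]; simp
  have hn3 : (3 : ℝ) ≤ n := by exact_mod_cast hn
  have e : ((n : ℝ) - 2) / ((n - 1 : ℕ) : ℝ) = 1 - 1 / ((n : ℝ) - 1) := by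
    rw [hn1]
    have : (n : ℝ) - 1 ≠ 0 := by linarith
    field_simp
    ring
  rw [e] at h1
  linarith

lemma det_matS {n : ℕ} (hn : 3 ≤ n) :
    (matS n).det / ((n : ℝ) - 1) ^ n = 2 * (1 - 1 / ((n : ℝ) - 1)) ^ (n - 1) := by
  have hn3 : (3 : ℝ) ≤ n := by exact_mod_cast hn
  have h2 : (n : ℝ) - 2 ≠ 0 := by linarith
  have h1 : (n : ℝ) - 1 ≠ 0 := by linarith
  have hS : matS n = ((n : ℝ) - 2) • (1 + replicateCol Unit (fun _ : Fin n => ((n : ℝ) - 2)⁻¹)
      * replicateRow Unit (fun _ : Fin n => (1 : ℝ))) := by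
    ext i j
    simp [matS, Matrix.mul_apply, mul_add, h2]
  rw [hS, det_smul, det_one_add_replicateCol_mul_replicateRow]
  simp only [Fintype.card_fin, dotProduct, one_mul, sum_const, card_univ, nsmul_eq_mul]
  obtain ⟨m, rfl⟩ : ∃ m, n = m + 1 := ⟨n - 1, by omega⟩
  simp only [Nat.add_sub_cancel]
  push_cast at *
  have e : (1 : ℝ) - 1 / ((m : ℝ) + 1 - 1) = ((m : ℝ) + 1 - 2) / ((m : ℝ) + 1 - 1) := by
    field_simp
    ring
  rw [e, div_pow, pow_succ, pow_succ]
  field_simp
  ring

/-- **Q1, in full.** For every `n ≥ 3` and every symmetric, entrywise positive, diagonally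
balanced real `n × n` matrix `J`, `det J / ∏ J_ii ≤ det S / (n-1)^n = 2 (1 - 1/(n-1))^(n-1)`. -/
theorem result (n : ℕ) (hn : 3 ≤ n) (J : Matrix (Fin n) (Fin n) ℝ) (hsymm : J.IsSymm)
    (hpos : ∀ i j, 0 < J i j) (hbal : ∀ i, rowExcess J i = 0) :
    J.det / ∏ i, J i i ≤ (matS n).det / ((n : ℝ) - 1) ^ n ∧
      (matS n).det / ((n : ℝ) - 1) ^ n = 2 * (1 - 1 / ((n : ℝ) - 1)) ^ (n - 1) := by
  refine ⟨?_, det_matS hn⟩
  rw [det_matS hn]
  have hbal' : ∀ i, J i i = ∑ j ∈ univ.erase i, J i j := by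
    intro i
    have h := hbal i
    unfold rowExcess at h
    rw [abs_of_pos (hpos i i)] at h
    rw [sub_eq_zero.mp h]
    exact sum_congr rfl fun j _ => abs_of_pos (hpos i j)
  have hPSD := posSemidef_of_balanced J hsymm hpos hbal'
  have hd : ∀ i, 0 < J i i := fun i => hpos i i
  set r : Fin n → ℝ := fun i => (Real.sqrt (J i i))⁻¹ with hr
  have hrpos : ∀ i, 0 < r i := fun i => inv_pos.mpr (Real.sqrt_pos.mpr (hd i))
  have hr2 : ∀ i, r i * r i * J i i = 1 := by
    intro i
    have h := Real.mul_self_sqrt (hd i).le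
    have hs : Real.sqrt (J i i) ≠ 0 := (Real.sqrt_pos.mpr (hd i)).ne'
    simp only [hr]
    field_simp
    nlinarith
  set N : Matrix (Fin n) (Fin n) ℝ := diagonal r * J * (diagonal r)ᴴ with hNdef
  have hN : N.PosSemidef := hPSD.mul_mul_conjTranspose_same _
  have hNij : ∀ i j, N i j = r i * J i j * r j := by
    intro i j
    simp [hNdef]
  have htr : N.trace = n := by
    simp only [trace, Matrix.diag]
    rw [sum_congr rfl fun i _ => show N i i = 1 by rw [hNij]; linarith [hr2 i]]
    simp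
  have hrow : ∀ i, ∑ j, J i j = 2 * J i i := by
    intro i
    rw [← add_sum_erase univ _ (mem_univ i), ← hbal' i]; ring
  have hv : (fun i => Real.sqrt (J i i)) ≠ 0 := by
    intro h
    have := congrFun h ⟨0, by omega⟩
    exact (Real.sqrt_pos.mpr (hd _)).ne' this
  have hNv : N *ᵥ (fun i => Real.sqrt (J i i)) = (2 : ℝ) • (fun i => Real.sqrt (J i i)) := by
    ext i
    simp only [mulVec, dotProduct, Pi.smul_apply, smul_eq_mul]
    have : ∀ j, N i j * Real.sqrt (J j j) = r i * J i j := by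
      intro j
      rw [hNij]
      have hs : Real.sqrt (J j j) ≠ 0 := (Real.sqrt_pos.mpr (hd j)).ne'
      simp only [hr]
      field_simp
    rw [sum_congr rfl fun j _ => this j, ← mul_sum, hrow]
    have h := Real.mul_self_sqrt (hd i).le
    have hs : Real.sqrt (J i i) ≠ 0 := (Real.sqrt_pos.mpr (hd i)).ne'
    simp only [hr]
    field_simp
    nlinarith
  have hdet : N.det = J.det / ∏ i, J i i := by
    rw [hNdef, det_mul, det_mul, det_conjTranspose, det_diagonal]
    simp only [star_trivial]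
    have hP : (∏ i, J i i) ≠ 0 := (prod_pos fun i _ => hd i).ne'
    rw [eq_div_iff hP]
    have : (∏ i, r i) * (∏ i, r i) * ∏ i, J i i = 1 := by
      rw [← prod_mul_distrib, ← prod_mul_distrib]
      exact prod_eq_one fun i _ => hr2 i
    calc (∏ i, r i) * J.det * (∏ i, r i) * ∏ i, J i i
        = J.det * ((∏ i, r i) * (∏ i, r i) * ∏ i, J i i) := by ring
      _ = J.det := by rw [this, mul_one]
  rw [← hdet]
  exact det_le_of_eigen hn N hN htr _ hv hNv

end Pool.Agent.Results.MP_fab4c6_an.DetBound
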